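import Pool.Agent.Helper63.RC.Good

/-!
The exponential form of the deletion lemma: `n` between `2 ^ ((c + γ / 2) d)` and `2 ^ ((c + γ) d)`, `c = log2 (2 / √3)`.
-/

set_option autoImplicit false

open MeasureTheory Set Metric ProbabilityTheory
open scoped ENNReal RealInnerProductSpace
open Pool.Agent.Helper47.KP Pool.Agent.Helper84.RK

namespace Pool.Agent.Helper63.RC

/-- two of the points are distinct as indices and too close -/
def Ad {d m : ℕ} (x : Fin m → Sph d) (a b : Fin m) : Prop :=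
  a ≠ b ∧ 1 / 2 < ⟪(x a : EE d), (x b : EE d)⟫

lemma cc_gap : cc (1 / 2) + 3 / 100 ≤ cc (Real.sqrt (2 / 7)) := by
  unfold cc
  rw [Real.sq_sqrt (by norm_num)]
  have h1 : Real.logb 2 (1 - (1 / 2 : ℝ) ^ 2) - Real.logb 2 (1 - 2 / 7) = Real.logb 2 (21 / 20) := by
    rw [← Real.logb_div (by norm_num) (by norm_num)]
    norm_num
  have h2 : (3 / 50 : ℝ) ≤ Real.logb 2 (21 / 20) := by
    rw [Real.le_logb_iff_rpow_le (by norm_num) (by norm_num)]
    have h3 : ((2 : ℝ) ^ (3 / 50 : ℝ)) ^ 50 ≤ (21 / 20 : ℝ) ^ 50 := by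
      rw [← Real.rpow_natCast, ← Real.rpow_mul (by norm_num)]
      norm_num
    exact le_of_pow_le_pow_left₀ (by norm_num) (by norm_num) h3
  linarith

lemma cc_gap2 : cc (1 / 2) + 3 / 100 ≤ cc (3 / 4) := by
  refine cc_gap.trans ?_
  unfold cc
  rw [Real.sq_sqrt (by norm_num)]
  have : Real.logb 2 (1 - (3 / 4 : ℝ) ^ 2) ≤ Real.logb 2 (1 - 2 / 7) := by
    apply Real.logb_le_logb_of_le (by norm_num) (by norm_num)
    norm_num
  linarith

lemma toReal_TT (d : ℕ) : (TT d).toReal = (den d).real (Ioi (Real.sqrt (2 / 7))) * (den d).real (Ioi (1 / 2)) +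
    (den d).real (Ioi (1 / 2)) * (den d).real (Ioi (3 / 4)) := by
  rw [TT, ENNReal.toReal_add (ENNReal.mul_ne_top (measure_ne_top _ _) (measure_ne_top _ _))
    (ENNReal.mul_ne_top (measure_ne_top _ _) (measure_ne_top _ _)), ENNReal.toReal_mul, ENNReal.toReal_mul]
  rfl

open Classical in
theorem good_subset {γ : ℝ} (hγ : 0 < γ) (hγ1 : γ ≤ 1 / 100) : ∃ δ : ℝ, 0 < δ ∧ ∃ d₀ : ℕ, 4 ≤ d₀ ∧
    ∀ (d : ℕ) [NeZero d], d₀ ≤ d → ∀ m : ℕ, (2 : ℝ) ^ ((cc (1 / 2) + γ / 2) * d) ≤ m →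
    (m : ℝ) ≤ (2 : ℝ) ^ ((cc (1 / 2) + γ) * d) →
    (Measure.pi fun _ : Fin m => sig d).real {x | ¬ ∃ G : Finset (Fin m), (m : ℝ) / 2 ≤ G.card ∧
      (∀ a ∈ G, ∀ b ∈ G, ∀ c ∈ G, Ad x a b → Ad x a c → ¬ Ad x b c) ∧
      ∀ a ∈ G, ((G.filter (fun b => Ad x a b)).card : ℝ) ≤ 4 * m * (den d).real (Ioi (1 / 2))} ≤
      (2 : ℝ) ^ (-(δ * d)) := by
  have hη : 0 < γ / 4 := by linarith
  obtain ⟨d1, -, h1⟩ := cap_exp (s := 1 / 2) (by norm_num) (by norm_num) hη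
  have hs1 : Real.sqrt (2 / 7) < 1 := by
    rw [Real.sqrt_lt' one_pos]; norm_num
  obtain ⟨d2, -, h2⟩ := cap_exp (s := Real.sqrt (2 / 7)) (Real.sqrt_nonneg _) hs1 hη
  obtain ⟨d3, -, h3⟩ := cap_exp (s := 3 / 4) (by norm_num) (by norm_num) hη
  refine ⟨γ / 8, by linarith, max (max d1 d2) (max (max d3 4) ⌈24 / γ⌉₊),
    (le_max_right d3 4).trans ((le_max_left _ _).trans (le_max_right _ _)), ?_⟩
  intro d _ hd m hm1 hm2
  have hd1 : d1 ≤ d := (le_max_left _ _).trans ((le_max_left _ _).trans hd)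
  have hd2 : d2 ≤ d := (le_max_right _ _).trans ((le_max_left _ _).trans hd)
  have hd3 : d3 ≤ d := (le_max_left _ _).trans ((le_max_left _ _).trans ((le_max_right _ _).trans hd))
  have hd4 : 4 ≤ d := (le_max_right _ _).trans ((le_max_left _ _).trans ((le_max_right _ _).trans hd))
  have hd5 : 24 / γ ≤ d := (Nat.le_ceil _).trans (by
    exact_mod_cast (le_max_right _ _).trans ((le_max_right _ _).trans hd))
  have hγd : 3 ≤ γ / 8 * d := by
    rw [div_le_iff₀ hγ] at hd5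
    linarith
  have hdpos : (0 : ℝ) ≤ d := Nat.cast_nonneg _
  obtain ⟨hV1, hV2⟩ := h1 d hd1
  have hU2 := (h2 d hd2).2
  have hW2 := (h3 d hd3).2
  set V := (den d).real (Ioi (1 / 2)) with hV
  have h2pos : ∀ t : ℝ, (0 : ℝ) < 2 ^ t := fun t => Real.rpow_pos_of_pos two_pos t
  have hV0 : 0 < V := (h2pos _).trans_le hV1
  have hm0 : (0 : ℝ) < m := (h2pos _).trans_le hm1
  have hm : 1 ≤ m := by exact_mod_cast hm0
  have hgood := good_fin (d := d) (by omega) hm hV hV0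
  have hsub : {x : Fin m → Sph d | ¬ ∃ G : Finset (Fin m), (m : ℝ) / 2 ≤ G.card ∧
      (∀ a ∈ G, ∀ b ∈ G, ∀ c ∈ G, Ad x a b → Ad x a c → ¬ Ad x b c) ∧
      ∀ a ∈ G, ((G.filter (fun b => Ad x a b)).card : ℝ) ≤ 4 * m * V} ⊆
      {x | ¬ ∃ G : Finset (Fin m), GoodSet d (4 * m * V) x G} := by
    intro x hx
    rw [mem_ofPred_eq] at hx ⊢
    rintro ⟨G, hG1, hG2, hG3⟩
    refine hx ⟨G, hG1, ?_, ?_⟩
    · intro a ha b hb c hc h1 h2 h3
      exact hG2 a ha b hb c hc h1.1.symm h2.1.symm h3.1 h1.2 h2.2 h3.2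
    · intro a ha
      refine le_trans ?_ (hG3 a ha)
      norm_cast
      refine Finset.card_le_card fun b hb => ?_
      rw [Finset.mem_filter] at hb ⊢
      exact ⟨Finset.mem_erase.2 ⟨hb.2.1.symm, Finset.mem_univ _⟩, hb.2.2⟩
  refine (measureReal_mono hsub).trans (hgood.trans ?_)
  -- the two terms
  have hA : 2 / (9 * m * V) ≤ (2 : ℝ) ^ (-(γ / 4 * d)) := by
    rw [div_le_iff₀ (by positivity)]
    have h5 : (2 : ℝ) ^ (-(γ / 4 * d)) * (2 ^ ((cc (1 / 2) + γ / 2) * d) * 2 ^ (-((cc (1 / 2) + γ / 4) * d))) = 1 := by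
      rw [← Real.rpow_add two_pos, ← Real.rpow_add two_pos]
      rw [show -(γ / 4 * (d : ℝ)) + ((cc (1 / 2) + γ / 2) * d + -((cc (1 / 2) + γ / 4) * d)) = 0 by ring,
        Real.rpow_zero]
    have h6 : (2 : ℝ) ^ ((cc (1 / 2) + γ / 2) * d) * 2 ^ (-((cc (1 / 2) + γ / 4) * d)) ≤ m * V :=
      mul_le_mul hm1 hV1 (h2pos _).le hm0.le
    have h7 := mul_le_mul_of_nonneg_left h6 (h2pos (-(γ / 4 * d))).le
    rw [h5] at h7
    nlinarith
  have hB : 2 * (m : ℝ) ^ 2 * (TT d).toReal ≤ 4 * (2 : ℝ) ^ (-(γ / 4 * d)) := by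
    rw [toReal_TT, ← hV]
    have hU3 : (den d).real (Ioi (Real.sqrt (2 / 7))) ≤ (2 : ℝ) ^ (-((cc (1 / 2) + 3 / 100 - γ / 4) * d)) := by
      refine hU2.trans (Real.rpow_le_rpow_of_exponent_le (by norm_num) ?_)
      have := mul_le_mul_of_nonneg_right cc_gap hdpos
      linarith
    have hW3 : (den d).real (Ioi (3 / 4)) ≤ (2 : ℝ) ^ (-((cc (1 / 2) + 3 / 100 - γ / 4) * d)) := by
      refine hW2.trans (Real.rpow_le_rpow_of_exponent_le (by norm_num) ?_)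
      have := mul_le_mul_of_nonneg_right cc_gap2 hdpos
      linarith
    have hT : (den d).real (Ioi (Real.sqrt (2 / 7))) * V + V * (den d).real (Ioi (3 / 4)) ≤
        2 * ((2 : ℝ) ^ (-((cc (1 / 2) - γ / 4) * d)) * 2 ^ (-((cc (1 / 2) + 3 / 100 - γ / 4) * d))) := by
      have e1 := mul_le_mul hV2 hU3 measureReal_nonneg (h2pos _).le
      have e2 := mul_le_mul hV2 hW3 measureReal_nonneg (h2pos _).le
      linarith
    have hm3 : (m : ℝ) ^ 2 ≤ 2 ^ ((cc (1 / 2) + γ) * d) * 2 ^ ((cc (1 / 2) + γ) * d) := by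
      rw [sq]
      exact mul_le_mul hm2 hm2 hm0.le (h2pos _).le
    have hT0 : 0 ≤ (den d).real (Ioi (Real.sqrt (2 / 7))) * V + V * (den d).real (Ioi (3 / 4)) := by
      have := measureReal_nonneg (μ := den d) (s := Ioi (Real.sqrt (2 / 7)))
      have := measureReal_nonneg (μ := den d) (s := Ioi (3 / 4 : ℝ))
      positivity
    calc 2 * (m : ℝ) ^ 2 * ((den d).real (Ioi (Real.sqrt (2 / 7))) * V + V * (den d).real (Ioi (3 / 4)))
        = 2 * ((m : ℝ) ^ 2 * ((den d).real (Ioi (Real.sqrt (2 / 7))) * V + V * (den d).real (Ioi (3 / 4)))) := by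
          ring
      _ ≤ 2 * ((2 ^ ((cc (1 / 2) + γ) * d) * 2 ^ ((cc (1 / 2) + γ) * d)) *
          (2 * ((2 : ℝ) ^ (-((cc (1 / 2) - γ / 4) * d)) * 2 ^ (-((cc (1 / 2) + 3 / 100 - γ / 4) * d))))) := by
          refine mul_le_mul_of_nonneg_left ?_ (by norm_num)
          exact mul_le_mul hm3 hT hT0 (by positivity)
      _ = 4 * (2 : ℝ) ^ ((-(3 / 100) + 5 / 2 * γ) * d) := by
          have : (2 : ℝ) ^ ((cc (1 / 2) + γ) * d) * 2 ^ ((cc (1 / 2) + γ) * d) *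
              (2 ^ (-((cc (1 / 2) - γ / 4) * d)) * 2 ^ (-((cc (1 / 2) + 3 / 100 - γ / 4) * d))) =
              2 ^ ((-(3 / 100) + 5 / 2 * γ) * d) := by
            rw [← Real.rpow_add two_pos, ← Real.rpow_add two_pos, ← Real.rpow_add two_pos]
            congr 1
            ring
          rw [← this]
          ring
      _ ≤ 4 * (2 : ℝ) ^ (-(γ / 4 * d)) := by
          refine mul_le_mul_of_nonneg_left (Real.rpow_le_rpow_of_exponent_le (by norm_num) ?_) (by norm_num)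
          nlinarith
  have hC : 8 * (2 : ℝ) ^ (-(γ / 4 * d)) ≤ (2 : ℝ) ^ (-(γ / 8 * d)) := by
    have h8 : (8 : ℝ) = 2 ^ (3 : ℝ) := by norm_num
    rw [h8, ← Real.rpow_add two_pos]
    apply Real.rpow_le_rpow_of_exponent_le (by norm_num)
    linarith
  have hpos := h2pos (-(γ / 4 * d))
  linarith

end Pool.Agent.Helper63.RC
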