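import Pool.Agent.Helper63.RC.Trip
import Pool.Agent.Helper84.RK.Num

/-!
Among `n` independent uniform points, `n` slightly larger than the reciprocal of the cap measure `p`, at least half have
at most `4 n p` neighbours and lie in no triangle, with probability exponentially close to 1.
-/

set_option autoImplicit false

open MeasureTheory Set Metric ProbabilityTheory
open scoped ENNReal RealInnerProductSpace
open Pool.Agent.Helper47.KP

namespace Pool.Agent.Helper63.RC

variable {d : ℕ}

/-- `x j` is close to `x i` -/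
def Ev (s : ℝ) (d : ℕ) {n : ℕ} (i j : Fin n) : Set (Fin n → Sph d) := {x | (x j, x i) ∈ Close s d}

/-- `x i, x j, x k` are pairwise close -/
def TrEv (d : ℕ) {n : ℕ} (i j k : Fin n) : Set (Fin n → Sph d) := {x | ((x i, x j), x k) ∈ Tri d}

lemma measurableSet_Ev (s : ℝ) {n : ℕ} (i j : Fin n) : MeasurableSet (Ev s d i j) :=
  (show Measurable fun x : Fin n → Sph d => (x j, x i) by fun_prop) (measurableSet_Close s)

lemma measurableSet_TrEv {n : ℕ} (i j k : Fin n) : MeasurableSet (TrEv d i j k) :=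
  (show Measurable fun x : Fin n → Sph d => ((x i, x j), x k) by fun_prop) measurableSet_Tri

lemma real_Ev [NeZero d] (hd : 3 ≤ d) (s : ℝ) {n : ℕ} {i j : Fin n} (hij : j ≠ i) :
    (Measure.pi fun _ : Fin n => sig d).real (Ev s d i j) = (den d).real (Ioi s) :=
  real_pair hd s hij

lemma real_Ev_inter [NeZero d] (hd : 3 ≤ d) (s : ℝ) {n : ℕ} {i j k : Fin n} (hij : j ≠ i) (hik : k ≠ i)
    (hjk : j ≠ k) : (Measure.pi fun _ : Fin n => sig d).real (Ev s d i j ∩ Ev s d i k) =
      (den d).real (Ioi s) * (den d).real (Ioi s) := by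
  have h : (Measure.pi fun _ : Fin n => sig d) (Ev s d i j ∩ Ev s d i k) =
      den d (Ioi s) * den d (Ioi s) := by
    rw [← sig3_Fork hd, ← map_triple hjk hij hik, Measure.map_apply (by fun_prop) (measurableSet_Fork s)]
    rfl
  rw [Measure.real, Measure.real, h, ENNReal.toReal_mul]

lemma real_TrEv_le [NeZero d] (hd : 3 ≤ d) {n : ℕ} {i j k : Fin n} (hij : j ≠ i) (hik : k ≠ i)
    (hjk : j ≠ k) : (Measure.pi fun _ : Fin n => sig d).real (TrEv d i j k) ≤ (TT d).toReal := by
  have h : (Measure.pi fun _ : Fin n => sig d) (TrEv d i j k) = sig3 d (Tri d) := by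
    rw [← map_triple hij.symm hik.symm hjk, Measure.map_apply (by fun_prop) measurableSet_Tri]
    rfl
  have hfin : ∀ t : ℝ, den d (Ioi t) ≠ ∞ := by
    intro t
    obtain ⟨x0⟩ := exists_point (d := d)
    rw [← map_inner hd x0]
    have : IsFiniteMeasure ((sig d).map (fun z : Sph d => ⟪(x0 : EE d), (z : EE d)⟫)) :=
      Measure.isFiniteMeasure_map _ _
    exact measure_ne_top _ _
  rw [Measure.real, h]
  refine ENNReal.toReal_mono ?_ (sig3_Tri_le hd)
  rw [TT]
  exact ENNReal.add_ne_top.2 ⟨ENNReal.mul_ne_top (hfin _) (hfin _), ENNReal.mul_ne_top (hfin _) (hfin _)⟩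

/-- the number of neighbours of `x i` -/
noncomputable def deg (d : ℕ) {n : ℕ} (i : Fin n) (x : Fin n → Sph d) : ℝ :=
  ∑ j ∈ Finset.univ.erase i, (Ev (1 / 2) d i j).indicator (1 : (Fin n → Sph d) → ℝ) x

lemma measurable_deg {n : ℕ} (i : Fin n) : Measurable (deg d i) := by
  unfold deg
  exact Finset.measurable_sum _ fun j _ => measurable_one.indicator (measurableSet_Ev _ i j)

/-- Chebyshev -/
lemma cheb [NeZero d] (hd : 3 ≤ d) {n : ℕ} (hn : 1 ≤ n) {V : ℝ} (hV : V = (den d).real (Ioi (1 / 2)))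
    (hV0 : 0 < V) (i : Fin n) :
    (Measure.pi fun _ : Fin n => sig d).real {x | 4 * n * V < deg d i x} ≤ 1 / (9 * n * V) := by
  classical
  set μ := Measure.pi fun _ : Fin n => sig d with hμ
  have hn0 : (1 : ℝ) ≤ n := by exact_mod_cast hn
  set Y : Fin n → (Fin n → Sph d) → ℝ := fun j x =>
    (Ev (1 / 2) d i j).indicator (1 : (Fin n → Sph d) → ℝ) x - V with hY
  have hi1 : ∀ j, Integrable ((Ev (1 / 2) d i j).indicator (1 : (Fin n → Sph d) → ℝ)) μ := fun j =>
    (integrable_const (1 : ℝ)).indicator (measurableSet_Ev _ i j)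
  have hmul : ∀ j k, (fun x => Y j x * Y k x) =
      fun x => (Ev (1 / 2) d i j ∩ Ev (1 / 2) d i k).indicator (1 : (Fin n → Sph d) → ℝ) x
        - V * (Ev (1 / 2) d i j).indicator (1 : (Fin n → Sph d) → ℝ) x
        - V * (Ev (1 / 2) d i k).indicator (1 : (Fin n → Sph d) → ℝ) x + V * V := by
    intro j k
    funext x
    have : (Ev (1 / 2) d i j ∩ Ev (1 / 2) d i k).indicator (1 : (Fin n → Sph d) → ℝ) x =
        (Ev (1 / 2) d i j).indicator (1 : (Fin n → Sph d) → ℝ) x *
          (Ev (1 / 2) d i k).indicator (1 : (Fin n → Sph d) → ℝ) x := by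
      rw [inter_indicator_one]
      rfl
    rw [this]
    simp only [hY]
    ring
  have hi2 : ∀ j k, Integrable
      ((Ev (1 / 2) d i j ∩ Ev (1 / 2) d i k).indicator (1 : (Fin n → Sph d) → ℝ)) μ := fun j k =>
    (integrable_const (1 : ℝ)).indicator ((measurableSet_Ev _ i j).inter (measurableSet_Ev _ i k))
  have hint : ∀ j k, Integrable (fun x => Y j x * Y k x) μ := by
    intro j k
    rw [hmul]
    exact (((hi2 j k).sub ((hi1 j).const_mul V)).sub ((hi1 k).const_mul V)).add (integrable_const _)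
  have hval : ∀ j k, j ≠ i → k ≠ i → ∫ x, Y j x * Y k x ∂μ =
      μ.real (Ev (1 / 2) d i j ∩ Ev (1 / 2) d i k) - V * V := by
    intro j k hj hk
    have s1 : Integrable (fun x => (Ev (1 / 2) d i j ∩ Ev (1 / 2) d i k).indicator
        (1 : (Fin n → Sph d) → ℝ) x - V * (Ev (1 / 2) d i j).indicator (1 : (Fin n → Sph d) → ℝ) x) μ :=
      (hi2 j k).sub ((hi1 j).const_mul V)
    have s2 : Integrable (fun x => (Ev (1 / 2) d i j ∩ Ev (1 / 2) d i k).indicator
        (1 : (Fin n → Sph d) → ℝ) x - V * (Ev (1 / 2) d i j).indicator (1 : (Fin n → Sph d) → ℝ) x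
        - V * (Ev (1 / 2) d i k).indicator (1 : (Fin n → Sph d) → ℝ) x) μ :=
      s1.sub ((hi1 k).const_mul V)
    rw [hmul, integral_add s2 (integrable_const _), integral_sub s1 ((hi1 k).const_mul V),
      integral_sub (hi2 j k) ((hi1 j).const_mul V), integral_const_mul, integral_const_mul,
      integral_indicator_one ((measurableSet_Ev _ i j).inter (measurableSet_Ev _ i k)),
      integral_indicator_one (measurableSet_Ev _ i j), integral_indicator_one (measurableSet_Ev _ i k),
      hμ, real_Ev hd _ hj, real_Ev hd _ hk, ← hV, integral_const, probReal_univ]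
    simp only [smul_eq_mul]
    ring
  have hvar : ∫ x, (∑ j ∈ Finset.univ.erase i, Y j x) ^ 2 ∂μ ≤ n * V := by
    have h1 : ∀ x, (∑ j ∈ Finset.univ.erase i, Y j x) ^ 2 =
        ∑ j ∈ Finset.univ.erase i, ∑ k ∈ Finset.univ.erase i, Y j x * Y k x := by
      intro x
      rw [sq, Finset.sum_mul_sum]
    simp only [h1]
    rw [integral_finsetSum _ fun j _ => integrable_finsetSum _ fun k _ => hint j k]
    have h2 : ∀ j ∈ Finset.univ.erase i, ∫ x, ∑ k ∈ Finset.univ.erase i, Y j x * Y k x ∂μ ≤ V := by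
      intro j hj
      have hj' := Finset.ne_of_mem_erase hj
      rw [integral_finsetSum _ fun k _ => hint j k, Finset.sum_eq_single_of_mem j hj]
      · rw [hval j j hj' hj', inter_self, hμ, real_Ev hd _ hj', ← hV]
        nlinarith
      · intro k hk hkj
        rw [hval j k hj' (Finset.ne_of_mem_erase hk), hμ,
          real_Ev_inter hd _ hj' (Finset.ne_of_mem_erase hk) hkj.symm, ← hV, sub_self]
    refine (Finset.sum_le_sum h2).trans ?_
    rw [Finset.sum_const, nsmul_eq_mul]
    refine mul_le_mul_of_nonneg_right ?_ hV0.le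
    have : (Finset.univ.erase i).card ≤ n := by
      refine (Finset.card_le_card (Finset.erase_subset _ _)).trans ?_
      rw [Finset.card_univ, Fintype.card_fin]
    exact_mod_cast this
  have hintsq : Integrable (fun x => (∑ j ∈ Finset.univ.erase i, Y j x) ^ 2) μ := by
    have h1 : (fun x => (∑ j ∈ Finset.univ.erase i, Y j x) ^ 2) =
        fun x => ∑ j ∈ Finset.univ.erase i, ∑ k ∈ Finset.univ.erase i, Y j x * Y k x := by
      funext x
      rw [sq, Finset.sum_mul_sum]
    rw [h1]
    exact integrable_finsetSum _ fun j _ => integrable_finsetSum _ fun k _ => hint j k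
  have hMar := mul_meas_ge_le_integral_of_nonneg (μ := μ)
    (f := fun x => (∑ j ∈ Finset.univ.erase i, Y j x) ^ 2)
    (Filter.Eventually.of_forall fun x => sq_nonneg _) hintsq ((3 * n * V) ^ 2)
  have hsub : {x | 4 * n * V < deg d i x} ⊆
      {x | (3 * n * V) ^ 2 ≤ (∑ j ∈ Finset.univ.erase i, Y j x) ^ 2} := by
    intro x hx
    rw [mem_ofPred_eq] at hx ⊢
    have h1 : ∑ j ∈ Finset.univ.erase i, Y j x = deg d i x - (Finset.univ.erase i).card * V := by
      rw [hY, deg, Finset.sum_sub_distrib, Finset.sum_const, nsmul_eq_mul]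
    have h2 : ((Finset.univ.erase i).card : ℝ) ≤ n := by
      have : (Finset.univ.erase i).card ≤ n := by
        refine (Finset.card_le_card (Finset.erase_subset _ _)).trans ?_
        rw [Finset.card_univ, Fintype.card_fin]
      exact_mod_cast this
    rw [h1]
    apply pow_le_pow_left₀ (by positivity)
    nlinarith [mul_le_mul_of_nonneg_right h2 hV0.le]
  have h3 : (3 * n * V) ^ 2 * μ.real {x | 4 * n * V < deg d i x} ≤ n * V :=
    (mul_le_mul_of_nonneg_left (measureReal_mono hsub) (sq_nonneg _)).trans (hMar.trans hvar)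
  rw [le_div_iff₀ (by positivity)]
  have h4 : (n * V) * (μ.real {x | 4 * n * V < deg d i x} * (9 * n * V)) ≤ (n * V) * 1 := by
    calc _ = (3 * n * V) ^ 2 * μ.real {x | 4 * n * V < deg d i x} := by ring
      _ ≤ _ := by rw [mul_one]; exact h3
  exact le_of_mul_le_mul_left h4 (by positivity)

/-- what the deletion leaves -/
def GoodSet (d : ℕ) {n : ℕ} (D : ℝ) (x : Fin n → Sph d) (G : Finset (Fin n)) : Prop :=
  (n : ℝ) / 2 ≤ G.card ∧
  (∀ i ∈ G, ∀ j ∈ G, ∀ k ∈ G, j ≠ i → k ≠ i → j ≠ k → 1 / 2 < ⟪(x i : EE d), (x j : EE d)⟫ →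
    1 / 2 < ⟪(x i : EE d), (x k : EE d)⟫ → ¬ 1 / 2 < ⟪(x j : EE d), (x k : EE d)⟫) ∧
  ∀ i ∈ G, (((Finset.univ.erase i).filter fun j => 1 / 2 < ⟪(x i : EE d), (x j : EE d)⟫).card : ℝ) ≤ D

lemma deg_eq {n : ℕ} (i : Fin n) (x : Fin n → Sph d) :
    deg d i x = ((Finset.univ.erase i).filter fun j => 1 / 2 < ⟪(x i : EE d), (x j : EE d)⟫).card := by
  classical
  rw [deg, Finset.card_filter, Nat.cast_sum]
  refine Finset.sum_congr rfl fun j _ => ?_
  have : x ∈ Ev (1 / 2) d i j ↔ 1 / 2 < ⟪(x i : EE d), (x j : EE d)⟫ := by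
    rw [real_inner_comm]; rfl
  by_cases h : 1 / 2 < ⟪(x i : EE d), (x j : EE d)⟫
  · rw [indicator_of_mem (this.2 h), if_pos h]
    simp
  · rw [indicator_of_notMem (fun h' => h (this.1 h')), if_neg h]
    simp

theorem good_fin [NeZero d] (hd : 3 ≤ d) {n : ℕ} (hn : 1 ≤ n) {V : ℝ}
    (hV : V = (den d).real (Ioi (1 / 2))) (hV0 : 0 < V) :
    (Measure.pi fun _ : Fin n => sig d).real {x | ¬ ∃ G : Finset (Fin n), GoodSet d (4 * n * V) x G} ≤
      2 / (9 * n * V) + 2 * n ^ 2 * (TT d).toReal := by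
  classical
  set μ := Measure.pi fun _ : Fin n => sig d with hμ
  have hn0 : (1 : ℝ) ≤ n := by exact_mod_cast hn
  set T := (TT d).toReal with hT
  have hT0 : 0 ≤ T := ENNReal.toReal_nonneg
  set H : Fin n → Set (Fin n → Sph d) := fun i => {x | 4 * n * V < deg d i x} with hH
  have hHm : ∀ i, MeasurableSet (H i) := fun i => measurableSet_lt measurable_const (measurable_deg i)
  set X : (Fin n → Sph d) → ℝ := fun x => ∑ i, ((H i).indicator 1 x +
    ∑ j ∈ Finset.univ.erase i, ∑ k ∈ (Finset.univ.erase i).erase j, (TrEv d i j k).indicator 1 x) with hX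
  have hiH : ∀ i, Integrable ((H i).indicator (1 : (Fin n → Sph d) → ℝ)) μ := fun i =>
    (integrable_const (1 : ℝ)).indicator (hHm i)
  have hiT : ∀ i j k, Integrable ((TrEv d i j k).indicator (1 : (Fin n → Sph d) → ℝ)) μ := fun i j k =>
    (integrable_const (1 : ℝ)).indicator (measurableSet_TrEv i j k)
  have hiS : ∀ i, Integrable (fun x => ∑ j ∈ Finset.univ.erase i,
      ∑ k ∈ (Finset.univ.erase i).erase j, (TrEv d i j k).indicator (1 : (Fin n → Sph d) → ℝ) x) μ :=
    fun i => integrable_finsetSum _ fun j _ => integrable_finsetSum _ fun k _ => hiT i j k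
  have hiHS : ∀ i, Integrable (fun x => (H i).indicator (1 : (Fin n → Sph d) → ℝ) x +
      ∑ j ∈ Finset.univ.erase i, ∑ k ∈ (Finset.univ.erase i).erase j,
        (TrEv d i j k).indicator (1 : (Fin n → Sph d) → ℝ) x) μ := fun i => (hiH i).add (hiS i)
  have hiX : Integrable X μ := integrable_finsetSum _ fun i _ => hiHS i
  have hcard : ∀ i : Fin n, ((Finset.univ.erase i).card : ℝ) ≤ n := by
    intro i
    have : (Finset.univ.erase i).card ≤ n := by
      refine (Finset.card_le_card (Finset.erase_subset _ _)).trans ?_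
      rw [Finset.card_univ, Fintype.card_fin]
    exact_mod_cast this
  have hX1 : ∫ x, X x ∂μ ≤ n * (1 / (9 * n * V) + n ^ 2 * T) := by
    have h0 : ∫ x, X x ∂μ = ∑ i, ∫ x, ((H i).indicator (1 : (Fin n → Sph d) → ℝ) x +
      ∑ j ∈ Finset.univ.erase i, ∑ k ∈ (Finset.univ.erase i).erase j,
        (TrEv d i j k).indicator (1 : (Fin n → Sph d) → ℝ) x) ∂μ :=
      integral_finsetSum _ fun i _ => hiHS i
    rw [h0]
    have h1 : ∀ i ∈ (Finset.univ : Finset (Fin n)), ∫ x, ((H i).indicator 1 x + ∑ j ∈ Finset.univ.erase i,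
        ∑ k ∈ (Finset.univ.erase i).erase j, (TrEv d i j k).indicator (1 : (Fin n → Sph d) → ℝ) x) ∂μ ≤
          1 / (9 * n * V) + n ^ 2 * T := by
      intro i _
      rw [integral_add (hiH i) (hiS i), integral_indicator_one (hHm i)]
      refine add_le_add (cheb hd hn hV hV0 i) ?_
      rw [integral_finsetSum _ fun j _ => integrable_finsetSum _ fun k _ => hiT i j k]
      have h2 : ∀ j ∈ Finset.univ.erase i, ∫ x, ∑ k ∈ (Finset.univ.erase i).erase j,
          (TrEv d i j k).indicator (1 : (Fin n → Sph d) → ℝ) x ∂μ ≤ n * T := by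
        intro j hj
        rw [integral_finsetSum _ fun k _ => hiT i j k]
        have h3 : ∀ k ∈ (Finset.univ.erase i).erase j,
            ∫ x, (TrEv d i j k).indicator (1 : (Fin n → Sph d) → ℝ) x ∂μ ≤ T := by
          intro k hk
          rw [integral_indicator_one (measurableSet_TrEv i j k)]
          exact real_TrEv_le hd (Finset.ne_of_mem_erase hj)
            (Finset.ne_of_mem_erase (Finset.mem_of_mem_erase hk)) (Finset.ne_of_mem_erase hk).symm
        refine (Finset.sum_le_sum h3).trans ?_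
        rw [Finset.sum_const, nsmul_eq_mul]
        refine mul_le_mul_of_nonneg_right (le_trans ?_ (hcard i)) hT0
        exact_mod_cast Finset.card_le_card (Finset.erase_subset _ _)
      refine (Finset.sum_le_sum h2).trans ?_
      rw [Finset.sum_const, nsmul_eq_mul, sq, mul_assoc]
      exact mul_le_mul_of_nonneg_right (hcard i) (by positivity)
    refine (Finset.sum_le_sum h1).trans ?_
    rw [Finset.sum_const, nsmul_eq_mul, Finset.card_univ, Fintype.card_fin]
  have hind : ∀ (S : Set (Fin n → Sph d)) x, 0 ≤ S.indicator (1 : (Fin n → Sph d) → ℝ) x :=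
    fun S x => indicator_nonneg (fun _ _ => zero_le_one) x
  have hX0 : ∀ x, 0 ≤ X x := fun x => Finset.sum_nonneg fun i _ => add_nonneg (hind _ x)
    (Finset.sum_nonneg fun j _ => Finset.sum_nonneg fun k _ => hind _ x)
  have hMar := mul_meas_ge_le_integral_of_nonneg (μ := μ) (f := X)
    (Filter.Eventually.of_forall hX0) hiX ((n : ℝ) / 2)
  have hsub : {x | ¬ ∃ G : Finset (Fin n), GoodSet d (4 * n * V) x G} ⊆ {x | (n : ℝ) / 2 ≤ X x} := by
    intro x hx
    rw [mem_ofPred_eq] at hx ⊢
    set G := Finset.univ.filter (fun i => x ∉ H i ∧ ∀ j, j ≠ i → ∀ k, k ≠ i → k ≠ j → x ∉ TrEv d i j k)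
      with hG
    set B := Finset.univ.filter (fun i => ¬ (x ∉ H i ∧ ∀ j, j ≠ i → ∀ k, k ≠ i → k ≠ j → x ∉ TrEv d i j k))
      with hB
    have hcard2 : G.card + B.card = n := by
      rw [hG, hB, Finset.card_filter_add_card_filter_not, Finset.card_univ, Fintype.card_fin]
    have hGlt : (G.card : ℝ) < (n : ℝ) / 2 := by
      by_contra h
      refine hx ⟨G, not_lt.1 h, ?_, ?_⟩
      · intro i hi j hj k hk hji hki hjk h1 h2 h3
        refine (Finset.mem_filter.1 hi).2.2 j hji k hki hjk.symm ?_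
        exact ⟨h1, h2, h3⟩
      · intro i hi
        rw [← deg_eq]
        exact not_lt.1 (Finset.mem_filter.1 hi).2.1
    have hB2 : (n : ℝ) / 2 ≤ B.card := by
      have h1 : ((G.card + B.card : ℕ) : ℝ) = n := by rw [hcard2]
      push_cast at h1
      linarith
    refine hB2.trans ?_
    have h2 : (B.card : ℝ) = ∑ i ∈ B, (1 : ℝ) := by simp
    rw [h2]
    have h0 : ∀ i, 0 ≤ (H i).indicator (1 : (Fin n → Sph d) → ℝ) x +
        ∑ j ∈ Finset.univ.erase i, ∑ k ∈ (Finset.univ.erase i).erase j,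
          (TrEv d i j k).indicator (1 : (Fin n → Sph d) → ℝ) x := fun i => add_nonneg (hind _ x)
      (Finset.sum_nonneg fun j _ => Finset.sum_nonneg fun k _ => hind _ x)
    calc ∑ i ∈ B, (1 : ℝ) ≤ ∑ i ∈ B, ((H i).indicator (1 : (Fin n → Sph d) → ℝ) x +
        ∑ j ∈ Finset.univ.erase i, ∑ k ∈ (Finset.univ.erase i).erase j,
          (TrEv d i j k).indicator (1 : (Fin n → Sph d) → ℝ) x) := by
          refine Finset.sum_le_sum fun i hi => ?_
          have h3 := (Finset.mem_filter.1 hi).2
          by_cases h4 : x ∈ H i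
          · rw [indicator_of_mem h4]
            have := Finset.sum_nonneg (s := Finset.univ.erase i) fun j _ =>
              Finset.sum_nonneg (s := (Finset.univ.erase i).erase j) fun k _ => hind (TrEv d i j k) x
            simp only [Pi.one_apply]
            linarith
          · have h5 : ¬ ∀ j, j ≠ i → ∀ k, k ≠ i → k ≠ j → x ∉ TrEv d i j k := fun h6 => h3 ⟨h4, h6⟩
            push Not at h5
            obtain ⟨j, hj, k, hk, hkj, h6⟩ := h5
            have h7 : (TrEv d i j k).indicator (1 : (Fin n → Sph d) → ℝ) x = 1 := indicator_of_mem h6 _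
            have h8 := Finset.single_le_sum
              (f := fun k => (TrEv d i j k).indicator (1 : (Fin n → Sph d) → ℝ) x)
              (s := (Finset.univ.erase i).erase j) (fun k _ => hind _ x)
              (Finset.mem_erase.2 ⟨hkj, Finset.mem_erase.2 ⟨hk, Finset.mem_univ _⟩⟩)
            have h9 := Finset.single_le_sum
              (f := fun j => ∑ k ∈ (Finset.univ.erase i).erase j,
                (TrEv d i j k).indicator (1 : (Fin n → Sph d) → ℝ) x)
              (s := Finset.univ.erase i) (fun j _ => Finset.sum_nonneg fun k _ => hind _ x)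
              (Finset.mem_erase.2 ⟨hj, Finset.mem_univ _⟩)
            have h10 := hind (H i) x
            linarith
      _ ≤ X x := Finset.sum_le_sum_of_subset_of_nonneg (Finset.filter_subset _ _) fun i _ _ => h0 i
  have h5 : (n : ℝ) / 2 * μ.real {x | ¬ ∃ G : Finset (Fin n), GoodSet d (4 * n * V) x G} ≤
      (n : ℝ) / 2 * (2 / (9 * n * V) + 2 * n ^ 2 * T) := by
    refine (mul_le_mul_of_nonneg_left (measureReal_mono hsub) (by positivity)).trans
      (hMar.trans (hX1.trans (le_of_eq ?_)))
    ring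
  exact le_of_mul_le_mul_left h5 (by positivity)

end Pool.Agent.Helper63.RC
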