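import Pool.Agent.Helper47.KP.Law

/-!
The lower bound for random candidates. Take `n` independent uniform points of the sphere, keep only the first
`m = min n ⌈N₀⌉` of them, and delete every point which is too close to an earlier one. The expected number of deleted
points is at most `(m (m - 1) / 2) V`, where `V` is the measure of the cap of cosine `s`, so by Markov more than half of
the `m` points are deleted with probability at most `(m - 1) V ≤ N₀ V`.
-/

set_option autoImplicit false

open MeasureTheory Set Metric ProbabilityTheory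
open scoped ENNReal RealInnerProductSpace
open Pool.Agent.Helper47.KP

namespace Pool.Agent.Helper63.RC

variable {d : ℕ}

/-- pairs of directions at angle less than `arccos s` -/
def Close (s : ℝ) (d : ℕ) : Set (Sph d × Sph d) := {p | s < ⟪(p.1 : EE d), (p.2 : EE d)⟫}

lemma measurableSet_Close (s : ℝ) : MeasurableSet (Close s d) := by
  have h : IsOpen (Close s d) := by
    apply isOpen_lt continuous_const
    exact (continuous_subtype_val.comp continuous_fst).inner (continuous_subtype_val.comp continuous_snd)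
  exact h.measurableSet

lemma prod_Close [NeZero d] (hd : 3 ≤ d) (s : ℝ) :
    ((sig d).prod (sig d)) (Close s d) = den d (Ioi s) := by
  rw [Measure.prod_apply (measurableSet_Close s)]
  have h : ∀ x : Sph d, sig d (Prod.mk x ⁻¹' Close s d) = den d (Ioi s) := by
    intro x
    rw [← map_inner hd x, Measure.map_apply (continuous_inner_S _).measurable measurableSet_Ioi]
    rfl
  simp [h]

lemma map_pair [NeZero d] {n : ℕ} {i j : Fin n} (hij : i ≠ j) :
    (Measure.pi fun _ : Fin n => sig d).map (fun x => (x i, x j)) = (sig d).prod (sig d) := by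
  have h1 : iIndepFun (fun (i : Fin n) (ω : Fin n → Sph d) => ω i) (Measure.pi fun _ : Fin n => sig d) :=
    iIndepFun_pi (X := fun _ => id) (fun _ => measurable_id.aemeasurable)
  have h2 := (h1.indepFun hij).map_prod_eq_prod_map_map
    (measurable_pi_apply i).aemeasurable (measurable_pi_apply j).aemeasurable
  rw [h2, (measurePreserving_eval (fun _ : Fin n => sig d) i).map_eq,
    (measurePreserving_eval (fun _ : Fin n => sig d) j).map_eq]

lemma real_pair [NeZero d] (hd : 3 ≤ d) (s : ℝ) {n : ℕ} {i j : Fin n} (hij : i ≠ j) :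
    (Measure.pi fun _ : Fin n => sig d).real {x | (x i, x j) ∈ Close s d} = (den d).real (Ioi s) := by
  have h : (Measure.pi fun _ : Fin n => sig d) {x | (x i, x j) ∈ Close s d} = den d (Ioi s) := by
    rw [← prod_Close hd s, ← map_pair hij, Measure.map_apply (by fun_prop) (measurableSet_Close s)]
    rfl
  rw [Measure.real, Measure.real, h]

/-- the first `m` indices -/
def first (n m : ℕ) : Finset (Fin n) := Finset.univ.filter fun i => i.val < m

lemma card_first {n m : ℕ} (h : m ≤ n) : (first n m).card = m := by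
  have h1 : (first n m) = (Finset.univ : Finset (Fin m)).map (Fin.castLEEmb h) := by
    ext i
    simp only [first, Finset.mem_filter, Finset.mem_univ, true_and, Finset.mem_map, Fin.castLEEmb_apply]
    constructor
    · intro hi
      exact ⟨⟨i.val, hi⟩, rfl⟩
    · rintro ⟨k, rfl⟩
      exact k.2
  rw [h1, Finset.card_map, Finset.card_univ, Fintype.card_fin]

lemma sum_first {n m : ℕ} (h : m ≤ n) : 2 * ∑ i ∈ first n m, (i.val : ℝ) = m * (m - 1) := by
  have h1 : (first n m) = (Finset.univ : Finset (Fin m)).map (Fin.castLEEmb h) := by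
    ext i
    simp only [first, Finset.mem_filter, Finset.mem_univ, true_and, Finset.mem_map, Fin.castLEEmb_apply]
    constructor
    · intro hi
      exact ⟨⟨i.val, hi⟩, rfl⟩
    · rintro ⟨k, rfl⟩
      exact k.2
  rw [h1, Finset.sum_map]
  simp only [Fin.castLEEmb_apply, Fin.val_castLE]
  rw [Fin.sum_univ_eq_sum_range (fun i => (i : ℝ)) m]
  have h2 : ((∑ i ∈ Finset.range m, i : ℕ) : ℝ) * 2 = m * (m - 1) := by
    rcases Nat.eq_zero_or_pos m with rfl | hm
    · simp
    · have := Finset.sum_range_id_mul_two m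
      have h3 : (((∑ i ∈ Finset.range m, i) * 2 : ℕ) : ℝ) = ((m * (m - 1) : ℕ) : ℝ) := by rw [this]
      push_cast [Nat.cast_sub hm] at h3 ⊢
      linarith
  push_cast at h2
  linarith

/-- **Lower bound, finite form.** -/
theorem low_fin [NeZero d] (hd : 3 ≤ d) {n : ℕ} (hn : 1 ≤ n) {s : ℝ} (hs : s < 1) {N0 : ℝ} (h0 : 0 < N0) :
    (Measure.pi fun _ : Fin n => sig d).real {x | ¬ ∃ T : Finset (Fin n), min (n : ℝ) N0 / 2 ≤ T.card ∧
      (∀ i ∈ T, ∀ j ∈ T, x i = x j → i = j) ∧
      ∀ i ∈ T, ∀ j ∈ T, i ≠ j → ⟪(x i : EE d), (x j : EE d)⟫ ≤ s} ≤ N0 * (den d).real (Ioi s) := by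
  classical
  set μ := Measure.pi fun _ : Fin n => sig d with hμ
  set V := (den d).real (Ioi s) with hV
  have hV0 : 0 ≤ V := measureReal_nonneg
  set m := min n ⌈N0⌉₊ with hm
  have hm1 : 1 ≤ m := le_min hn (Nat.one_le_iff_ne_zero.2 (by
    have := Nat.ceil_pos.2 h0
    omega))
  have hmn : m ≤ n := min_le_left _ _
  have hmN : min (n : ℝ) N0 ≤ m := by
    rw [hm, Nat.cast_min]
    exact min_le_min_left _ (Nat.le_ceil _)
  have hmN' : (m : ℝ) - 1 ≤ N0 := by
    have h1 : (m : ℝ) ≤ (⌈N0⌉₊ : ℝ) := by exact_mod_cast min_le_right _ _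
    have h2 := Nat.ceil_lt_add_one h0.le
    linarith
  have hm1' : (1 : ℝ) ≤ m := by exact_mod_cast hm1
  set E : Fin n → Fin n → Set (Fin n → Sph d) := fun i j => {x | (x j, x i) ∈ Close s d} with hE
  have hEm : ∀ i j, MeasurableSet (E i j) := fun i j =>
    (show Measurable fun x : Fin n → Sph d => (x j, x i) by fun_prop) (measurableSet_Close s)
  set f : (Fin n → Sph d) → ℝ := fun x => ∑ i ∈ first n m, ∑ j ∈ Finset.Iio i, (E i j).indicator 1 x with hf
  have hint : ∀ i j, Integrable ((E i j).indicator (1 : (Fin n → Sph d) → ℝ)) μ := fun i j =>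
    (integrable_const (1 : ℝ)).indicator (hEm i j)
  have hfint : Integrable f μ :=
    integrable_finsetSum _ fun i _ => integrable_finsetSum _ fun j _ => hint i j
  have hfi : ∫ x, f x ∂μ = ∑ i ∈ first n m, (i.val : ℝ) * V := by
    rw [hf, integral_finsetSum _ fun i _ => integrable_finsetSum _ fun j _ => hint i j]
    refine Finset.sum_congr rfl fun i _ => ?_
    rw [integral_finsetSum _ fun j _ => hint i j]
    have : ∀ j ∈ Finset.Iio i, ∫ x, (E i j).indicator 1 x ∂μ = V := by
      intro j hj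
      rw [integral_indicator_one (hEm i j)]
      exact real_pair hd s (Finset.mem_Iio.1 hj).ne
    rw [Finset.sum_congr rfl this, Finset.sum_const, Fin.card_Iio, nsmul_eq_mul]
  have hMar := mul_meas_ge_le_integral_of_nonneg (μ := μ) (f := f)
    (Filter.Eventually.of_forall fun x => Finset.sum_nonneg fun i _ => Finset.sum_nonneg fun j _ =>
      indicator_nonneg (fun _ _ => zero_le_one) x) hfint ((m : ℝ) / 2)
  have hsub : {x | ¬ ∃ T : Finset (Fin n), min (n : ℝ) N0 / 2 ≤ T.card ∧
      (∀ i ∈ T, ∀ j ∈ T, x i = x j → i = j) ∧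
      ∀ i ∈ T, ∀ j ∈ T, i ≠ j → ⟪(x i : EE d), (x j : EE d)⟫ ≤ s} ⊆ {x | (m : ℝ) / 2 ≤ f x} := by
    intro x hx
    rw [mem_ofPred_eq] at hx ⊢
    set T := (first n m).filter (fun i => ∀ j, j < i → ⟪(x j : EE d), (x i : EE d)⟫ ≤ s) with hT
    set D := (first n m).filter (fun i => ¬ ∀ j, j < i → ⟪(x j : EE d), (x i : EE d)⟫ ≤ s) with hD
    have hcard : T.card + D.card = m := by
      rw [hT, hD, Finset.card_filter_add_card_filter_not, card_first hmn]
    have hpw : ∀ i ∈ T, ∀ j ∈ T, i ≠ j → ⟪(x i : EE d), (x j : EE d)⟫ ≤ s := by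
      intro i hi j hj hij
      rcases lt_or_gt_of_ne hij with h | h
      · exact (Finset.mem_filter.1 hj).2 i h
      · rw [real_inner_comm]
        exact (Finset.mem_filter.1 hi).2 j h
    have hTlt : (T.card : ℝ) < min (n : ℝ) N0 / 2 := by
      by_contra h
      refine hx ⟨T, not_lt.1 h, ?_, hpw⟩
      intro i hi j hj hxy
      by_contra hij
      have h1 := hpw i hi j hj hij
      rw [hxy, inner_self_S] at h1
      linarith
    have hD2 : (m : ℝ) / 2 ≤ D.card := by
      have h1 : ((T.card + D.card : ℕ) : ℝ) = m := by rw [hcard]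
      push_cast at h1
      linarith
    refine hD2.trans ?_
    have h2 : (D.card : ℝ) = ∑ i ∈ D, (1 : ℝ) := by simp
    rw [h2]
    calc ∑ i ∈ D, (1 : ℝ) ≤ ∑ i ∈ D, ∑ j ∈ Finset.Iio i, (E i j).indicator 1 x := by
          refine Finset.sum_le_sum fun i hi => ?_
          have h3 := (Finset.mem_filter.1 hi).2
          push Not at h3
          obtain ⟨j, hj, hji⟩ := h3
          have h4 : (E i j).indicator (1 : (Fin n → Sph d) → ℝ) x = 1 :=
            indicator_of_mem (show x ∈ E i j from hji) _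
          calc (1 : ℝ) = (E i j).indicator (1 : (Fin n → Sph d) → ℝ) x := h4.symm
            _ ≤ _ := Finset.single_le_sum
              (f := fun j => (E i j).indicator (1 : (Fin n → Sph d) → ℝ) x)
              (fun j _ => indicator_nonneg (fun _ _ => zero_le_one) x) (Finset.mem_Iio.2 hj)
      _ ≤ f x := Finset.sum_le_sum_of_subset_of_nonneg (Finset.filter_subset _ _)
          fun i _ _ => Finset.sum_nonneg fun j _ => indicator_nonneg (fun _ _ => zero_le_one) x
  have h5 : μ.real {x | (m : ℝ) / 2 ≤ f x} ≤ ((m : ℝ) - 1) * V := by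
    have h6 : ∫ x, f x ∂μ = ((m : ℝ) / 2) * (((m : ℝ) - 1) * V) := by
      rw [hfi, ← Finset.sum_mul]
      have := sum_first hmn
      nlinarith
    rw [h6] at hMar
    exact le_of_mul_le_mul_left hMar (by linarith)
  calc _ ≤ μ.real {x | (m : ℝ) / 2 ≤ f x} := measureReal_mono hsub
    _ ≤ ((m : ℝ) - 1) * V := h5
    _ ≤ N0 * V := mul_le_mul_of_nonneg_right hmN' hV0

/-- **Lower bound, exponential form**, from an upper bound of the cap measure. -/
theorem low_of_cap {s c : ℝ} (hs : s < 1)
    (hcap : ∀ η : ℝ, 0 < η → ∃ d0 : ℕ, ∀ d : ℕ, d0 ≤ d →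
      (den d).real (Ioi s) ≤ (2 : ℝ) ^ (-(c - η) * (d : ℝ))) {ε : ℝ} (hε : 0 < ε) :
    ∃ d0 : ℕ, ∀ d : ℕ, d0 ≤ d → ∀ [NeZero d], ∀ n : ℕ, 1 ≤ n →
      (Measure.pi fun _ : Fin n => sig d).real {x | ¬ ∃ T : Finset (Fin n),
        min (n : ℝ) ((2 : ℝ) ^ ((c - ε) * (d : ℝ))) / 2 ≤ T.card ∧
        (∀ i ∈ T, ∀ j ∈ T, x i = x j → i = j) ∧
        ∀ i ∈ T, ∀ j ∈ T, i ≠ j → ⟪(x i : EE d), (x j : EE d)⟫ ≤ s} ≤ (2 : ℝ) ^ (-(ε / 2) * (d : ℝ)) := by
  obtain ⟨d0, h⟩ := hcap (ε / 2) (by linarith)
  refine ⟨max d0 3, fun d hd _ n hn => ?_⟩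
  have h3 : 3 ≤ d := le_trans (le_max_right _ _) hd
  refine (low_fin h3 hn hs (Real.rpow_pos_of_pos two_pos _)).trans ?_
  refine (mul_le_mul_of_nonneg_left (h d (le_trans (le_max_left _ _) hd))
    (Real.rpow_pos_of_pos two_pos _).le).trans (le_of_eq ?_)
  rw [← Real.rpow_add two_pos]
  congr 1
  ring

end Pool.Agent.Helper63.RC
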