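import Pool.Agent.Helper63.RC.Low

/-!
Three independent uniform points: two of them close to the third, and triangles.
-/

set_option autoImplicit false

open MeasureTheory Set Metric ProbabilityTheory
open scoped ENNReal RealInnerProductSpace
open Pool.Agent.Helper47.KP

namespace Pool.Agent.Helper63.RC

variable {d : ℕ}

/-- the law of three points -/
noncomputable def sig3 (d : ℕ) : Measure ((Sph d × Sph d) × Sph d) := ((sig d).prod (sig d)).prod (sig d)

lemma mem_Close {s : ℝ} {x y : Sph d} : (x, y) ∈ Close s d ↔ s < ⟪(x : EE d), (y : EE d)⟫ := Iff.rfl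

lemma Close_comm {s : ℝ} {x y : Sph d} : (x, y) ∈ Close s d ↔ (y, x) ∈ Close s d := by
  rw [mem_Close, mem_Close, real_inner_comm]

lemma cap_left [NeZero d] (hd : 3 ≤ d) (s : ℝ) (z : Sph d) :
    sig d {x | (x, z) ∈ Close s d} = den d (Ioi s) := by
  rw [← map_inner hd z, Measure.map_apply (continuous_inner_S _).measurable measurableSet_Ioi]
  congr 1
  ext x
  rw [mem_setOf_eq, Close_comm]
  rfl

lemma cap_right [NeZero d] (hd : 3 ≤ d) (s : ℝ) (z : Sph d) :
    sig d {x | (z, x) ∈ Close s d} = den d (Ioi s) := by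
  rw [← map_inner hd z, Measure.map_apply (continuous_inner_S _).measurable measurableSet_Ioi]
  rfl

lemma map_triple [NeZero d] {n : ℕ} {i j k : Fin n} (hij : i ≠ j) (hik : i ≠ k) (hjk : j ≠ k) :
    (Measure.pi fun _ : Fin n => sig d).map (fun x => ((x i, x j), x k)) = sig3 d := by
  have h1 : iIndepFun (fun (i : Fin n) (ω : Fin n → Sph d) => ω i) (Measure.pi fun _ : Fin n => sig d) :=
    iIndepFun_pi (X := fun _ => id) (fun _ => measurable_id.aemeasurable)
  have h2 := (h1.indepFun_prodMk (fun i => measurable_pi_apply i) i j k hik hjk).map_prod_eq_prod_map_map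
    (by fun_prop) (measurable_pi_apply k).aemeasurable
  rw [h2, map_pair hij, (measurePreserving_eval (fun _ : Fin n => sig d) k).map_eq, sig3]

/-- both points close to the third one -/
def Fork (s : ℝ) (d : ℕ) : Set ((Sph d × Sph d) × Sph d) :=
  {q | (q.1.1, q.2) ∈ Close s d ∧ (q.1.2, q.2) ∈ Close s d}

lemma measurableSet_Fork (s : ℝ) : MeasurableSet (Fork s d) :=
  MeasurableSet.inter
    ((show Measurable fun q : (Sph d × Sph d) × Sph d => (q.1.1, q.2) by fun_prop) (measurableSet_Close s))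
    ((show Measurable fun q : (Sph d × Sph d) × Sph d => (q.1.2, q.2) by fun_prop) (measurableSet_Close s))

lemma sig3_Fork [NeZero d] (hd : 3 ≤ d) (s : ℝ) : sig3 d (Fork s d) = den d (Ioi s) * den d (Ioi s) := by
  rw [sig3, Measure.prod_apply_symm (measurableSet_Fork s)]
  have h : ∀ z : Sph d, ((sig d).prod (sig d)) ((fun p => (p, z)) ⁻¹' Fork s d) =
      den d (Ioi s) * den d (Ioi s) := by
    intro z
    have h1 : (fun p : Sph d × Sph d => (p, z)) ⁻¹' Fork s d =
        {x | (x, z) ∈ Close s d} ×ˢ {x | (x, z) ∈ Close s d} := by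
      ext p
      rfl
    rw [h1, Measure.prod_prod, cap_left hd]
  simp [h]

/-- three points pairwise close -/
def Tri (d : ℕ) : Set ((Sph d × Sph d) × Sph d) :=
  {q | (q.1.1, q.1.2) ∈ Close (1 / 2) d ∧ q ∈ Fork (1 / 2) d}

lemma measurableSet_Tri : MeasurableSet (Tri d) :=
  MeasurableSet.inter
    ((show Measurable fun q : (Sph d × Sph d) × Sph d => (q.1.1, q.1.2) by fun_prop) (measurableSet_Close _))
    (measurableSet_Fork _)

/-- the bound of the measure of the triangles -/
noncomputable def TT (d : ℕ) : ℝ≥0∞ :=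
  den d (Ioi (Real.sqrt (2 / 7))) * den d (Ioi (1 / 2)) + den d (Ioi (1 / 2)) * den d (Ioi (3 / 4))

lemma third_le [NeZero d] (hd : 3 ≤ d) (a b : Sph d) (hab : ⟪(a : EE d), (b : EE d)⟫ ≤ 3 / 4)
    (hab0 : 1 / 2 < ⟪(a : EE d), (b : EE d)⟫) :
    sig d {z | (a, z) ∈ Close (1 / 2) d ∧ (b, z) ∈ Close (1 / 2) d} ≤ den d (Ioi (Real.sqrt (2 / 7))) := by
  set v : EE d := (a : EE d) + (b : EE d) with hv
  have hn : ‖v‖ ^ 2 = 2 + 2 * ⟪(a : EE d), (b : EE d)⟫ := by
    rw [hv, @norm_add_sq_real, norm_S, norm_S]; ring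
  have hv0 : 0 < ‖v‖ := by
    rcases (norm_nonneg v).lt_or_eq with h | h
    · exact h
    · rw [← h] at hn
      norm_num at hn
      linarith
  have hw : ‖(‖v‖⁻¹ • v)‖ = 1 := by
    rw [norm_smul, norm_inv, norm_norm, inv_mul_cancel₀ hv0.ne']
  set w : Sph d := ⟨‖v‖⁻¹ • v, by simpa using hw⟩ with hwdef
  rw [← cap_right hd (Real.sqrt (2 / 7)) w]
  apply measure_mono
  rintro z ⟨h1, h2⟩
  rw [mem_Close] at h1 h2
  change Real.sqrt (2 / 7) < ⟪‖v‖⁻¹ • v, (z : EE d)⟫
  rw [real_inner_smul_left]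
  have h3 : 1 < ⟪v, (z : EE d)⟫ := by
    rw [hv, inner_add_left]; linarith
  have h4 : Real.sqrt (2 / 7) * ‖v‖ ≤ 1 := by
    have h5 : Real.sqrt (2 / 7) * ‖v‖ ≤ Real.sqrt 1 := by
      rw [← Real.sqrt_sq hv0.le, ← Real.sqrt_mul (by norm_num)]
      apply Real.sqrt_le_sqrt
      rw [hn]
      linarith
    rwa [Real.sqrt_one] at h5
  rw [inv_mul_eq_div, lt_div_iff₀ hv0]
  linarith

lemma sig3_Tri_le [NeZero d] (hd : 3 ≤ d) : sig3 d (Tri d) ≤ TT d := by
  rw [sig3, Measure.prod_apply measurableSet_Tri]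
  have h : ∀ p : Sph d × Sph d, sig d (Prod.mk p ⁻¹' Tri d) ≤
      (Close (1 / 2) d).indicator (fun _ => den d (Ioi (Real.sqrt (2 / 7)))) p +
        (Close (3 / 4) d).indicator (fun _ => den d (Ioi (1 / 2))) p := by
    intro p
    by_cases hp : p ∈ Close (1 / 2) d
    · by_cases hp2 : p ∈ Close (3 / 4) d
      · rw [indicator_of_mem hp2]
        refine le_trans ?_ (le_add_left le_rfl)
        rw [← cap_right hd (1 / 2) p.1]
        apply measure_mono
        rintro z ⟨-, h2, -⟩
        exact h2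
      · rw [indicator_of_mem hp]
        refine le_trans ?_ (le_add_right le_rfl)
        refine le_trans (measure_mono ?_) (third_le hd p.1 p.2 (not_lt.1 hp2) hp)
        rintro z ⟨-, h2⟩
        exact h2
    · have : Prod.mk p ⁻¹' Tri d = ∅ := by
        ext z
        simp only [mem_preimage, mem_empty_iff_false, iff_false]
        rintro ⟨h1, -⟩
        exact hp h1
      rw [this, measure_empty]
      exact zero_le
  refine (lintegral_mono h).trans ?_
  rw [lintegral_add_left (measurable_const.indicator (measurableSet_Close _)),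
    lintegral_indicator_const (measurableSet_Close _), lintegral_indicator_const (measurableSet_Close _),
    prod_Close hd, prod_Close hd, TT]

end Pool.Agent.Helper63.RC
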